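import Mathlib
import Pool.Agent.H624R3.CP.Stmts

set_option autoImplicit false
set_option linter.unusedSectionVars false

/-!
Sum of the principal minors of a Gram matrix of vectors in dimension `n`.
-/

namespace Pool.Agent.H787R3.CP

open Pool.Agent.H624R3.CP Finset Matrix

/-- expansion of `det (1 + x G)` in principal minors -/
theorem det_one_add {ι : Type} [Fintype ι] [DecidableEq ι] (G : Matrix ι ι ℝ) (x : ℝ) :
    (1 + x • G).det = ∑ s : Finset ι, x ^ s.card *
      (G.submatrix (fun i : {i // i ∈ s} => i.1) (fun i : {i // i ∈ s} => i.1)).det := by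
  have h := (Matrix.detRowAlternating (R := ℝ) (n := ι)).toMultilinearMap.map_add_univ
    (fun i => (x • G) i) (fun i => (1 : Matrix ι ι ℝ) i)
  have h1 : (1 + x • G).det = (Matrix.detRowAlternating (R := ℝ) (n := ι)).toMultilinearMap
      ((fun i => (x • G) i) + (fun i => (1 : Matrix ι ι ℝ) i)) := by
    rw [add_comm]
    rfl
  rw [h1, h]
  refine Finset.sum_congr rfl fun s _ => ?_
  obtain ⟨M, hM⟩ : ∃ M : Matrix ι ι ℝ, M = s.piecewise (fun i => (x • G) i)
    (fun i => (1 : Matrix ι ι ℝ) i) := ⟨_, rfl⟩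
  have h2 : (Matrix.detRowAlternating (R := ℝ) (n := ι)).toMultilinearMap
      (s.piecewise (fun i => (x • G) i) (fun i => (1 : Matrix ι ι ℝ) i)) = M.det := by
    rw [hM]
    rfl
  have hMs : ∀ i ∈ s, ∀ j, M i j = x * G i j := by
    intro i hi j
    rw [hM]
    show (s.piecewise (fun i => (x • G) i) (fun i => (1 : Matrix ι ι ℝ) i)) i j = _
    rw [Finset.piecewise_eq_of_mem _ _ _ hi]
    rfl
  have hMn : ∀ i, i ∉ s → ∀ j, M i j = (1 : Matrix ι ι ℝ) i j := by
    intro i hi j
    rw [hM]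
    show (s.piecewise (fun i => (x • G) i) (fun i => (1 : Matrix ι ι ℝ) i)) i j = _
    rw [Finset.piecewise_eq_of_notMem _ _ _ hi]
  rw [h2, Matrix.twoBlockTriangular_det M (fun i => i ∈ s)]
  · have h3 : toSquareBlockProp M (fun i => i ∈ s) =
        x • G.submatrix (fun i : {i // i ∈ s} => i.1) (fun i : {i // i ∈ s} => i.1) := by
      ext i j
      show M i.1 j.1 = x * G i.1 j.1
      exact hMs i.1 i.2 j.1
    have h4 : toSquareBlockProp M (fun i => ¬ i ∈ s) = 1 := by
      ext i j
      show M i.1 j.1 = _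
      rw [hMn i.1 i.2 j.1, Matrix.one_apply, Matrix.one_apply]
      simp only [Subtype.ext_iff]
    have h5 : @Fintype.card {i // i ∈ s} (Subtype.fintype fun i => i ∈ s) = s.card := by
      rw [Fintype.card_subtype]
      congr 1
      ext i
      simp
    rw [h3, h4, Matrix.det_one, mul_one]
    obtain ⟨N, hN⟩ : ∃ N : Matrix {i // i ∈ s} {i // i ∈ s} ℝ, N =
        G.submatrix (fun i : {i // i ∈ s} => i.1) (fun i : {i // i ∈ s} => i.1) := ⟨_, rfl⟩
    have h6 : ∀ (i1 i2 : Fintype {i // i ∈ s}) (d1 d2 : DecidableEq {i // i ∈ s}),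
        @Fintype.card {i // i ∈ s} i1 = s.card →
        @Matrix.det _ d1 i1 ℝ _ (x • N) = x ^ s.card * @Matrix.det _ d2 i2 ℝ _ N := by
      intro i1 i2 d1 d2 hc
      obtain rfl : i1 = i2 := Subsingleton.elim _ _
      obtain rfl : d1 = d2 := Subsingleton.elim _ _
      rw [Matrix.det_smul, hc]
    rw [← hN]
    exact h6 _ _ _ _ h5
  · intro i hi j hj
    rw [hMn i hi j, Matrix.one_apply, if_neg]
    rintro rfl
    exact hi hj

theorem am_gm {n : ℕ} (hn : 1 ≤ n) (z : Fin n → ℝ) (hz : ∀ i, 0 ≤ z i) :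
    ∏ i, z i ≤ ((∑ i, z i) / n) ^ n := by
  have hn0 : (n : ℝ) ≠ 0 := by positivity
  have h := Real.geom_mean_le_arith_mean_weighted univ (fun _ : Fin n => ((n : ℝ))⁻¹) z
    (fun _ _ => by positivity) (by simp [hn0]) (fun i _ => hz i)
  have h1 : (∏ i, z i ^ ((n : ℝ))⁻¹) ^ n = ∏ i, z i := by
    rw [← Finset.prod_pow]
    refine Finset.prod_congr rfl fun i _ => ?_
    exact Real.rpow_inv_natCast_pow (hz i) (by omega)
  rw [← h1]
  have h2 : ∑ i, ((n : ℝ))⁻¹ * z i = (∑ i, z i) / n := by
    rw [← Finset.mul_sum, inv_mul_eq_div]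
  rw [← h2]
  exact pow_le_pow_left₀ (Finset.prod_nonneg fun i _ => Real.rpow_nonneg (hz i) _) h n

theorem det_le_trace {n : ℕ} (hn : 1 ≤ n) {A : Matrix (Fin n) (Fin n) ℝ} (hA : A.PosSemidef) :
    A.det ≤ (A.trace / n) ^ n := by
  have h1 := hA.isHermitian.det_eq_prod_eigenvalues
  have h2 := hA.isHermitian.trace_eq_sum_eigenvalues
  simp only [RCLike.ofReal_real_eq_id, id_eq] at h1 h2
  rw [h1, h2]
  exact am_gm hn _ hA.eigenvalues_nonneg

/-- the bijection given by an embedding with image `s` -/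
noncomputable def eqv {ι : Type} {k : ℕ} (f : Fin k ↪ ι) (s : Finset ι)
    (h : univ.map f = s) : Fin k ≃ {i // i ∈ s} :=
  Equiv.ofBijective (fun l => ⟨f l, by rw [← h]; exact mem_map_of_mem f (mem_univ l)⟩) (by
    constructor
    · intro a b hab
      exact f.injective (Subtype.ext_iff.1 hab)
    · rintro ⟨i, hi⟩
      rw [← h] at hi
      obtain ⟨l, -, hl⟩ := mem_map.1 hi
      exact ⟨l, Subtype.ext hl⟩)

theorem eqv_apply {ι : Type} {k : ℕ} (f : Fin k ↪ ι) (s : Finset ι)
    (h : univ.map f = s) (l : Fin k) : (eqv f s h l).1 = f l := rfl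

theorem card_fiber {ι : Type} [Fintype ι] [DecidableEq ι] {k : ℕ} (s : Finset ι) :
    (univ.filter (fun f : Fin k ↪ ι => univ.map f = s)).card ≤ k.factorial := by
  rcases Finset.eq_empty_or_nonempty (univ.filter (fun f : Fin k ↪ ι => univ.map f = s)) with h | h
  · rw [h, card_empty]
    exact Nat.zero_le _
  · obtain ⟨f0, hf0⟩ := h
    have hf0 : univ.map f0 = s := (mem_filter.1 hf0).2
    have e0 := eqv f0 s hf0
    rw [← Fintype.card_subtype]
    have h1 : Function.Injective (fun f : {f : Fin k ↪ ι // univ.map f = s} => eqv f.1 s f.2) := by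
      intro f g hfg
      apply Subtype.ext
      ext l
      have := congrArg (fun e : Fin k ≃ {i // i ∈ s} => (e l).1) hfg
      exact this
    refine (Fintype.card_le_of_injective _ h1).trans ?_
    rw [Fintype.card_equiv e0, Fintype.card_fin]

theorem taskDETI : TaskDETI := by
  classical
  intro n k ι _ _ u x hn hx
  obtain ⟨G, hG⟩ : ∃ G : Matrix ι ι ℝ, G = Matrix.of fun a b => inner ℝ (u a) (u b) := ⟨_, rfl⟩
  obtain ⟨g, hg⟩ : ∃ g : Finset ι → ℝ, g = fun s => (G.submatrix (fun i : {i // i ∈ s} => i.1)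
      (fun i : {i // i ∈ s} => i.1)).det := ⟨_, rfl⟩
  have hg0 : ∀ s, 0 ≤ g s := by
    intro s
    rw [hg, hG]
    exact (Matrix.posSemidef_gram ℝ (fun a : {i // i ∈ s} => u a.1)).det_nonneg
  -- the sum over injective tuples
  have hA : ∑ f : (Fin k ↪ ι), gram (fun l => u (f l)) ≤
      k.factorial * ∑ s ∈ powersetCard k (univ : Finset ι), g s := by
    rw [← Finset.sum_fiberwise_of_maps_to (s := (univ : Finset (Fin k ↪ ι)))
      (t := powersetCard k (univ : Finset ι)) (g := fun f => univ.map f)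
      (fun f _ => by
        rw [mem_powersetCard]
        exact ⟨subset_univ _, by rw [card_map, card_univ, Fintype.card_fin]⟩), Finset.mul_sum]
    refine Finset.sum_le_sum fun s _ => ?_
    have h1 : ∀ f ∈ univ.filter (fun f : Fin k ↪ ι => univ.map f = s),
        gram (fun l => u (f l)) = g s := by
      intro f hf
      have hf : univ.map f = s := (mem_filter.1 hf).2
      have h2 := Matrix.det_submatrix_equiv_self (eqv f s hf)
        (G.submatrix (fun i : {i // i ∈ s} => i.1) (fun i : {i // i ∈ s} => i.1))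
      rw [hg]
      refine Eq.trans ?_ h2
      show (Matrix.of fun a b => inner ℝ (u (f a)) (u (f b))).det = _
      congr 1
      rw [hG]
      rfl
    rw [Finset.sum_congr rfl h1, Finset.sum_const, nsmul_eq_mul]
    exact mul_le_mul_of_nonneg_right (by exact_mod_cast card_fiber s) (hg0 s)
  -- the determinant
  have hB : x ^ k * ∑ s ∈ powersetCard k (univ : Finset ι), g s ≤ (1 + x • G).det := by
    rw [det_one_add, Finset.mul_sum]
    have h1 : ∑ s ∈ powersetCard k (univ : Finset ι), x ^ k * g s =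
        ∑ s ∈ powersetCard k (univ : Finset ι), x ^ s.card * g s := by
      refine Finset.sum_congr rfl fun s hs => ?_
      rw [(mem_powersetCard.1 hs).2]
    rw [h1, hg]
    refine Finset.sum_le_sum_of_subset_of_nonneg (subset_univ _) fun s _ _ => ?_
    have := hg0 s
    rw [hg] at this
    exact mul_nonneg (pow_nonneg hx.le _) this
  -- to dimension n
  obtain ⟨U, hU⟩ : ∃ U : Matrix ι (Fin n) ℝ, U = Matrix.of fun i j => u i j := ⟨_, rfl⟩
  have hGU : G = U * Uᵀ := by
    rw [hG, hU]
    ext a b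
    rw [Matrix.mul_apply, Matrix.of_apply, PiLp.inner_apply]
    refine Finset.sum_congr rfl fun j _ => ?_
    simp [mul_comm]
  have hC : (1 + x • G).det = (1 + x • (Uᵀ * U)).det := by
    rw [hGU, ← Matrix.smul_mul, Matrix.det_one_add_mul_comm, Matrix.mul_smul]
  have hps : (1 + x • (Uᵀ * U)).PosSemidef := by
    refine Matrix.PosSemidef.add Matrix.PosSemidef.one ?_
    have h1 := Matrix.posSemidef_conjTranspose_mul_self U
    rw [Matrix.conjTranspose_eq_transpose_of_trivial] at h1
    exact h1.smul hx.le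
  have htr : (1 + x • (Uᵀ * U)).trace = n + x * ∑ i, ‖u i‖ ^ 2 := by
    rw [Matrix.trace_add, Matrix.trace_one, Fintype.card_fin, Matrix.trace_smul, smul_eq_mul,
      Matrix.trace_mul_comm, ← hGU, hG]
    congr 2
    rw [Matrix.trace]
    refine Finset.sum_congr rfl fun i _ => ?_
    rw [Matrix.diag_apply, Matrix.of_apply, real_inner_self_eq_norm_sq]
  have hD := det_le_trace hn hps
  rw [htr] at hD
  have hn0 : (n : ℝ) ≠ 0 := by positivity
  have h5 : ((n : ℝ) + x * ∑ i, ‖u i‖ ^ 2) / n = 1 + x * (∑ i, ‖u i‖ ^ 2) / n := by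
    field_simp
  rw [h5] at hD
  calc x ^ k * ∑ f : (Fin k ↪ ι), gram (fun l => u (f l))
      ≤ x ^ k * (k.factorial * ∑ s ∈ powersetCard k (univ : Finset ι), g s) :=
        mul_le_mul_of_nonneg_left hA (pow_nonneg hx.le _)
    _ = k.factorial * (x ^ k * ∑ s ∈ powersetCard k (univ : Finset ι), g s) := by ring
    _ ≤ k.factorial * (1 + x * (∑ i, ‖u i‖ ^ 2) / n) ^ n :=
        mul_le_mul_of_nonneg_left ((hB.trans (le_of_eq hC)).trans hD) (Nat.cast_nonneg _)

end Pool.Agent.H787R3.CP
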